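import Pool.Agent.helper66.PX.Spec

set_option autoImplicit false

namespace Pool.Agent.PX

universe u v

theorem SEL_mono {K : Type u} {U : Type v} [Field K] [Ring U] [Algebra K U] {T : ℕ → Submodule K U}
    (hT : ∀ k, T k ≤ T (k + 1)) : Monotone T := monotone_nat_of_le_succ hT

theorem SEL_pick {K : Type u} {U : Type v} [Field K] [Ring U] [Algebra K U] (A : Submodule K U)
    (T : ℕ → Submodule K U) (hT : ∀ k, T k ≤ T (k + 1)) (G : U → U) (m : ℕ) (hm : ∀ a ∈ A, G a ∈ T m) :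
    ∃ b ∈ A, ∀ k, (∃ a ∈ A, G a ∉ T k) → G b ∉ T k := by
  classical
  have hmono := SEL_mono hT
  set P : ℕ → Prop := fun k => ∃ a ∈ A, G a ∉ T k with hP
  by_cases h : ∃ k, P k
  · obtain ⟨k₀, hk₀⟩ := h
    have hlt : ∀ k, P k → k ≤ m := by
      rintro k ⟨a, ha, hak⟩
      by_contra hcon
      exact hak (hmono (by omega : m ≤ k) (hm a ha))
    have hg : P (Nat.findGreatest P m) := Nat.findGreatest_spec (hlt k₀ hk₀) hk₀
    obtain ⟨b, hb, hbk⟩ := hg
    refine ⟨b, hb, fun k hk hbT => hbk ?_⟩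
    exact hmono (Nat.le_findGreatest (hlt k hk) hk) hbT
  · refine ⟨0, A.zero_mem, fun k hk => absurd ⟨k, hk⟩ h⟩

theorem SEL : SEL_stmt.{u, v} := by
  intro K U _ _ _ A T hT F h1 h2
  choose m hm using h1
  have h3 : ∀ n, ∃ b ∈ A, ∀ k, (∃ a ∈ A, F n a ∉ T k) → F n b ∉ T k :=
    fun n => SEL_pick A T hT (F n) (m n) (hm n)
  choose b hbA hb using h3
  obtain ⟨k, hk⟩ := h2 b hbA
  refine ⟨k, fun n a ha => ?_⟩
  by_contra hcon
  exact hb n k ⟨a, ha, hcon⟩ (hk n)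

end Pool.Agent.PX
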